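import Pool.Agent.H54.DGS.Main

/-!
# The usual `𝒳`-Gorenstein projective classes, strongly compact cardinals and Vopenka's Principle

Modules live in `Type u` over rings in `Type u`, classes are arbitrary sets of objects one
universe up.  The notions `DGP.PerpOne`, `DGP.Filtered`, `DGP.Deconstructible` are in
`Pool.Agent.H54.DGP.Defs`, `DGP.ViolatesVP` is in `Pool.Agent.H54.DGP.Main`, and `DGP.StdXGP`,
`DGP.OmegaOneStronglyCompact` are in `Pool.Agent.H54.DGS.Main`.
-/

universe u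

open CategoryTheory Cardinal FirstOrder FirstOrder.Language

namespace Pool.Agent.Results.MP_bc2dbd_lc.AllCycles

open DGP

/-- (DGP) for the usual definition: for every ring and every class `𝒳` of modules, the class of
modules `ker (P⁰ → P¹)`, where `P` is an acyclic complex of projective modules with `Hom (P, X)`
exact for all `X ∈ 𝒳`, is deconstructible. -/
def StdDGP : Prop :=
  ∀ (R : Type u) [Ring R] (𝒳 : Set (ModuleCat.{u} R)), Deconstructible (StdXGP 𝒳)

/-- Vopenka's Principle: every proper class (non-small set) of structures in a common language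
contains distinct members `A`, `B` with an elementary embedding `A → B`. -/
def VopenkaPrinciple : Prop :=
  ∀ (L : FirstOrder.Language.{u, u}) (𝒦 : Set (Bundled.{u} L.Structure)), ¬ Small.{u} 𝒦 →
    ∃ A ∈ 𝒦, ∃ B ∈ 𝒦, A ≠ B ∧ Nonempty (A ↪ₑ[L] B)

theorem local_version {κ : Cardinal.{u}} (hκ : OmegaOneStronglyCompact κ)
    (L : FirstOrder.Language.{u, u}) : ∃ (R : Type u) (_ : Ring R),
    ∀ 𝒦 : Set (Bundled.{u} L.Structure), ViolatesVP 𝒦 →
      ∃ 𝒳 : Set (ModuleCat.{u} R), ∀ 𝒟 : Set (ModuleCat.{u} R),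
        StdXGP 𝒳 ⊆ 𝒟 → 𝒟 ⊆ PerpOne 𝒳 → ¬ Deconstructible 𝒟 := by
  let Λ : Type u := (max κ (max ℵ₀ L.card)).out
  have hκΛ : κ ≤ #Λ := by rw [mk_out]; exact le_max_left _ _
  have hΛ : ℵ₀ ≤ #Λ := by rw [mk_out]; exact (le_max_left _ _).trans (le_max_right _ _)
  have hL : L.card ≤ #Λ := by rw [mk_out]; exact (le_max_right _ _).trans (le_max_right _ _)
  exact ⟨H54.DD (ℤ → H54.SS L Λ) (H54.shift (H54.SS L Λ)), inferInstance, fun 𝒦 h𝒦 =>
    ⟨H54.vclass H54.SS.two (H54.testClass Λ 𝒦), fun 𝒟 h1 h2 =>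
      H54.not_deconstructible_std hΛ hL h𝒦
        (fun B _ hB => H54.exists_ultrafilter hκ B hΛ hL hB hκΛ) 𝒟 h1 h2⟩⟩

/-- If there is an `ω₁`-strongly compact cardinal, then (DGP), for the usual definition of
`𝒳`-Gorenstein projective modules, implies Vopenka's Principle.  More precisely, for every
language there is then one ring over which every violation of Vopenka's Principle in that
language gives a class `𝒳` such that no class between the class of the `𝒳`-Gorenstein projective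
modules in the usual sense and `⊥₁ 𝒳` is deconstructible. -/
theorem result :
    (∀ κ : Cardinal.{u}, OmegaOneStronglyCompact κ →
      ∀ L : FirstOrder.Language.{u, u}, ∃ (R : Type u) (_ : Ring R),
        ∀ 𝒦 : Set (Bundled.{u} L.Structure), ViolatesVP 𝒦 →
          ∃ 𝒳 : Set (ModuleCat.{u} R), ∀ 𝒟 : Set (ModuleCat.{u} R),
            StdXGP 𝒳 ⊆ 𝒟 → 𝒟 ⊆ PerpOne 𝒳 → ¬ Deconstructible 𝒟) ∧
    (StdDGP.{u} → VopenkaPrinciple.{u} ∨ ¬ ∃ κ : Cardinal.{u}, OmegaOneStronglyCompact κ) := by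
  refine ⟨fun κ hκ L => local_version hκ L, fun hD => ?_⟩
  by_contra hc
  push Not at hc
  obtain ⟨hV, κ, hκ⟩ := hc
  apply hV
  intro L 𝒦 h𝒦
  by_contra hc
  push Not at hc
  obtain ⟨R, _, hR⟩ := local_version hκ L
  obtain ⟨𝒳, h𝒳⟩ := hR 𝒦 ⟨h𝒦, fun A hA B hB hAB =>
    not_nonempty_iff.1 (fun h => (not_nonempty_iff.2 (hc A hA B hB hAB)) h)⟩
  exact h𝒳 (StdXGP 𝒳) subset_rfl (H54.stdXGP_subset_perpOne 𝒳) (hD R 𝒳)

end Pool.Agent.Results.MP_bc2dbd_lc.AllCycles
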