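import Pool.Agent.H54.DGP.Main

/-!
# Deconstructibility of all `𝒳`-Gorenstein projective classes implies Vopenka's Principle

Modules live in `Type u` over rings in `Type u`, classes are arbitrary sets of objects one
universe up.  The notions `DGP.PerpOne`, `DGP.XGP`, `DGP.AlmostXGP`, `DGP.Filtered`,
`DGP.Deconstructible`, `DGP.ViolatesVP` are in the files `Pool.Agent.H54.DGP.Defs` and
`Pool.Agent.H54.DGP.Main`.
-/

universe u

open CategoryTheory Cardinal FirstOrder FirstOrder.Language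

namespace Pool.Agent.Results.MP_bc2dbd_lc.VopenkaFromDGP

open DGP

/-- (DGP): for every ring and every class `𝒳` of modules, the class of `𝒳`-Gorenstein projective
modules is deconstructible. -/
def DGPStatement : Prop :=
  ∀ (R : Type u) [Ring R] (𝒳 : Set (ModuleCat.{u} R)), Deconstructible (XGP 𝒳)

/-- Vopenka's Principle: every proper class (non-small set) of structures in a common language
contains distinct members `A`, `B` with an elementary embedding `A → B`. -/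
def VopenkaPrinciple : Prop :=
  ∀ (L : FirstOrder.Language.{u, u}) (𝒦 : Set (Bundled.{u} L.Structure)), ¬ Small.{u} 𝒦 →
    ∃ A ∈ 𝒦, ∃ B ∈ 𝒦, A ≠ B ∧ Nonempty (A ↪ₑ[L] B)

theorem almostXGP_subset {R : Type u} [Ring R] (𝒳 : Set (ModuleCat.{u} R)) :
    AlmostXGP 𝒳 ⊆ XGP 𝒳 := by
  rintro G ⟨P, h1, h2, ⟨e⟩, h4⟩
  refine ⟨⟨P, h1, h2, ⟨e⟩⟩, ?_⟩
  exact H54.perpOne_of_iso e.symm (h4 0 (by norm_num))

theorem local_version (L : FirstOrder.Language.{u, u}) : ∃ (R : Type u) (_ : Ring R),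
    ∀ 𝒦 : Set (Bundled.{u} L.Structure), ViolatesVP 𝒦 →
      ∃ 𝒳 : Set (ModuleCat.{u} R), ∀ 𝒟 : Set (ModuleCat.{u} R),
        AlmostXGP 𝒳 ⊆ 𝒟 → 𝒟 ⊆ PerpOne 𝒳 → ¬ Deconstructible 𝒟 := by
  let Λ : Type u := (max ℵ₀ L.card).out
  have hΛ : ℵ₀ ≤ #Λ := by rw [mk_out]; exact le_max_left _ _
  have hL : L.card ≤ #Λ := by rw [mk_out]; exact le_max_right _ _
  exact ⟨H54.DD (ℤ → H54.SS L Λ) (H54.shift (H54.SS L Λ)), inferInstance, fun 𝒦 h𝒦 =>
    ⟨H54.vclass H54.SS.two (H54.testClass Λ 𝒦), fun 𝒟 h1 h2 =>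
      H54.not_deconstructible_of_violates hΛ hL h𝒦 𝒟 h1 h2⟩⟩

/-- For every language there is one ring over which every violation of Vopenka's Principle in
that language gives a class `𝒳` such that no class between the `𝒳`-Gorenstein projective modules
(even with all cycles but one in `⊥₁ 𝒳`) and `⊥₁ 𝒳` is deconstructible.  In particular, (DGP)
implies Vopenka's Principle. -/
theorem result :
    (∀ L : FirstOrder.Language.{u, u}, ∃ (R : Type u) (_ : Ring R),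
      ∀ 𝒦 : Set (Bundled.{u} L.Structure), ViolatesVP 𝒦 →
        ∃ 𝒳 : Set (ModuleCat.{u} R), ∀ 𝒟 : Set (ModuleCat.{u} R),
          AlmostXGP 𝒳 ⊆ 𝒟 → 𝒟 ⊆ PerpOne 𝒳 → ¬ Deconstructible 𝒟) ∧
    (DGPStatement.{u} → VopenkaPrinciple.{u}) := by
  refine ⟨local_version, fun hD L 𝒦 h𝒦 => ?_⟩
  by_contra hc
  push Not at hc
  obtain ⟨R, _, hR⟩ := local_version L
  obtain ⟨𝒳, h𝒳⟩ := hR 𝒦 ⟨h𝒦, fun A hA B hB hAB =>
    not_nonempty_iff.1 (fun h => (not_nonempty_iff.2 (hc A hA B hB hAB)) h)⟩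
  exact h𝒳 (XGP 𝒳) (almostXGP_subset 𝒳) (fun G hG => hG.2) (hD R 𝒳)

end Pool.Agent.Results.MP_bc2dbd_lc.VopenkaFromDGP
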